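import Pool.Agent.T6.H96.KT.Fnl

/-!
# The number of classes of words modulo `(A^4 - 1)^n`
-/

set_option autoImplicit false

namespace Pool.Agent.T6.H96.KT

open Finset LaurentPolynomial Pool.Agent.H891R2.Jones Pool.Agent.W639.RB Pool.Agent.Y463.SK

variable {m : ℕ}

theorem abs_pat (U : Fin m → Bool) (i : ℕ) : |pat U i| ≤ 1 := by
  unfold pat
  split_ifs <;> simp

theorem costS_le (w : List (Bool × ℕ)) : ∀ U : ℕ → ℤ, (∀ i, |U i| ≤ 1) → |costS w U| ≤ w.length := by
  induction w with
  | nil => intro U _; simp [costS]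
  | cons x w ih =>
    intro U hU
    have h1 := ih (U ∘ Equiv.swap x.2 (x.2+1)) (fun i => hU _)
    rw [costS, List.length_cons]
    have h2 : |(if x.1 then (1 : ℤ) else -1) * (U x.2 * U (x.2+1))| ≤ 1 := by
      rw [abs_mul, abs_mul]
      have h3 : |(if x.1 then (1 : ℤ) else -1)| = 1 := by split_ifs <;> simp
      rw [h3, one_mul]
      exact mul_le_one₀ (hU _) (abs_nonneg _) (hU _)
    push_cast
    exact (abs_add_le _ _).trans (by linarith)

/-- an encoding of the integers of absolute value at most `M` -/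
def enc (M : ℕ) (z : ℤ) : Fin (2 * M + 1) := ⟨min (z + M).toNat (2 * M), by omega⟩

theorem enc_inj {M : ℕ} {z z' : ℤ} (h : |z| ≤ M) (h' : |z'| ≤ M) (he : enc M z = enc M z') : z = z' := by
  rw [abs_le] at h h'
  have h1 := congrArg Fin.val he
  unfold enc at h1
  simp only at h1
  omega

/-- The number of pairs with the same value. -/
theorem pairs {U D : Type*} [Fintype U] [Fintype D] [DecidableEq D] (f : U → D) :
    (Fintype.card U) ^ 2 ≤ Fintype.card D *
      ((univ : Finset (U × U)).filter fun p => f p.1 = f p.2).card := by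
  have h1 : Fintype.card U = ∑ d : D, (univ.filter fun u => f u = d).card := by
    rw [← Finset.card_univ]
    exact Finset.card_eq_sum_card_fiberwise (fun u _ => mem_univ (f u))
  have h2 : ((univ : Finset (U × U)).filter fun p => f p.1 = f p.2).card =
      ∑ d : D, (univ.filter fun u => f u = d).card ^ 2 := by
    rw [Finset.card_eq_sum_card_fiberwise (t := univ) (f := fun p : U × U => f p.1)
      (fun u _ => mem_univ _)]
    refine sum_congr rfl fun d _ => ?_
    rw [sq, ← card_product]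
    congr 1
    ext ⟨u, u'⟩
    simp only [mem_filter, mem_univ, true_and, mem_product]
    constructor
    · rintro ⟨h, h'⟩; exact ⟨h', by rw [← h, h']⟩
    · rintro ⟨h, h'⟩; exact ⟨by rw [h, h'], h⟩
  rw [h1, h2]
  have := sq_sum_le_card_mul_sum_sq (s := (univ : Finset D))
    (f := fun d => (univ.filter fun u => f u = d).card)
  simpa using this

theorem toL_eq {n : ℕ} (w : Fin n → Letter m) : toL w = toN (List.ofFn w) := by
  unfold toL toN
  rw [List.map_ofFn]
  rfl

theorem perm_eqW {n : ℕ} (w : Fin n → Letter m) : permW (List.ofFn w) = perm w := by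
  unfold permW perm
  rw [List.map_ofFn]
  rfl

open Classical in
/-- **The classes.** -/
theorem classes (hm : 0 < m) : ∃ (κ : ℕ) (K : ℝ), 0 ≤ K ∧ ∀ n N : ℕ, 2 ≤ N →
    ∃ (Dt : Type) (_ : Fintype Dt) (cl : (Fin N → Letter m) → Dt),
      (Fintype.card Dt : ℝ) ≤ (2 * (Real.exp K * (N : ℝ) ^ n) + 1) ^ (κ * n) *
        (m.factorial * (2 * N + 1) ^ (2 ^ m)) ∧
      ∀ w w', cl w = cl w' → permW (List.ofFn w) = permW (List.ofFn w') ∧
        (∀ U : Fin m → Bool, costS (toL w) (pat U) = costS (toL w') (pat U)) ∧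
        ∃ b : SA m, wa m (toL w) = wa m (toL w') + (T 4 - 1 : ℤ[T;T⁻¹]) ^ n • b := by
  obtain ⟨F, K, hK, hg⟩ := growth hm
  refine ⟨4 * F.card, K, hK, ?_⟩
  intro n N hN
  have hN0 : (0 : ℝ) < N := by exact_mod_cast (by omega : 0 < N)
  have hN2 : (2 : ℝ) ≤ N := by exact_mod_cast hN
  have hN1 : (1 : ℝ) ≤ N := by linarith
  have hy : (0 : ℝ) < 1 / N := by positivity
  have hy1 : (1 : ℝ) / N ≤ 1 / 2 := one_div_le_one_div_of_le (by norm_num) hN2
  have hex : ∀ w : Fin N → Letter m, ∃ (c : Fin 4 × F → ℕ → ℤ) (b : SA m),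
      wa m (toL w) = mt (T 4 - 1 : ℤ[T;T⁻¹]) (gF F) n c + (T 4 - 1 : ℤ[T;T⁻¹]) ^ n • b ∧
        wt n (1 / (N : ℝ)) c ≤ Real.exp K := by
    intro w
    have h1 := hg (List.ofFn w) n (1 / N) hy.le hy1
    rw [List.length_ofFn, ← toL_eq] at h1
    refine h1.mono ?_
    have h2 : 1 + K * (1 / (N : ℝ)) ≤ Real.exp (K / N) := by
      have := Real.add_one_le_exp (K / N)
      rw [mul_one_div]; linarith
    refine (pow_le_pow_left₀ (by positivity) h2 N).trans (le_of_eq ?_)
    rw [← Real.exp_nat_mul]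
    congr 1
    field_simp
  choose c b hc hw using hex
  set M : ℕ := ⌊Real.exp K * (N : ℝ) ^ n⌋₊ with hM
  have hbd : ∀ w j k, k < n → |c w j k| ≤ (M : ℤ) := by
    intro w j k hk
    have h1 := coeff_bound hy (hw w) j k hk
    have h2 : Real.exp K / (1 / (N : ℝ)) ^ k = Real.exp K * (N : ℝ) ^ k := by
      rw [one_div, inv_pow, div_inv_eq_mul]
    rw [h2] at h1
    have h3 : Real.exp K * (N : ℝ) ^ k ≤ Real.exp K * (N : ℝ) ^ n :=
      mul_le_mul_of_nonneg_left (pow_le_pow_right₀ hN1 hk.le) (Real.exp_pos _).le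
    have h4 : (c w j k).natAbs ≤ M := by
      apply Nat.le_floor
      have h5 : (((c w j k).natAbs : ℕ) : ℝ) = |(c w j k : ℝ)| := by
        rw [← Int.cast_abs, Int.abs_eq_natAbs]
        simp
      rw [h5]
      exact h1.trans h3
    rw [Int.abs_eq_natAbs]
    exact_mod_cast h4
  refine ⟨(Fin 4 × F → Fin n → Fin (2 * M + 1)) × Equiv.Perm (Fin m) × ((Fin m → Bool) → Fin (2 * N + 1)),
    inferInstance, fun w => (fun j k => enc M (c w j k), permW (List.ofFn w),
      fun U => enc N (costS (toL w) (pat U))), ?_, ?_⟩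
  · rw [Fintype.card_prod, Fintype.card_prod, Fintype.card_fun, Fintype.card_fun, Fintype.card_fun,
      Fintype.card_perm, Fintype.card_fin, Fintype.card_fin, Fintype.card_fin, Fintype.card_fin,
      Fintype.card_prod, Fintype.card_fin, Fintype.card_coe, Fintype.card_fun, Fintype.card_bool,
      Fintype.card_fin, ← pow_mul]
    push_cast
    have h1 : (M : ℝ) ≤ Real.exp K * (N : ℝ) ^ n := Nat.floor_le (by positivity)
    have h2 : (2 * (M : ℝ) + 1) ^ (n * (4 * F.card)) ≤
        (2 * (Real.exp K * (N : ℝ) ^ n) + 1) ^ (4 * F.card * n) := by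
      rw [mul_comm n]
      exact pow_le_pow_left₀ (by positivity) (by linarith) _
    exact mul_le_mul_of_nonneg_right h2 (by positivity)
  · intro w w' h
    have h1 := congrArg Prod.fst h
    have h2 := congrArg (fun p => p.2.1) h
    have h3 := congrArg (fun p => p.2.2) h
    simp only at h1 h2 h3
    refine ⟨h2, fun U => ?_, ?_⟩
    · have h4 := congrFun h3 U
      refine enc_inj ?_ ?_ h4
      · have := costS_le (toL w) (pat U) (abs_pat U)
        rwa [toL, List.length_ofFn] at this
      · have := costS_le (toL w') (pat U) (abs_pat U)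
        rwa [toL, List.length_ofFn] at this
    · have h4 : mt (T 4 - 1 : ℤ[T;T⁻¹]) (gF F) n (c w) = mt (T 4 - 1 : ℤ[T;T⁻¹]) (gF F) n (c w') := by
        unfold mt
        refine Finset.sum_congr rfl fun j _ => Finset.sum_congr rfl fun k hk => ?_
        rw [Finset.mem_range] at hk
        have h5 := congrFun (congrFun h1 j) ⟨k, hk⟩
        rw [enc_inj (hbd w j k hk) (hbd w' j k hk) h5]
      refine ⟨b w - b w', ?_⟩
      rw [hc w, hc w', h4, smul_sub]
      abel

/-- the words which look like the empty word -/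
def Good (n : ℕ) {L : ℕ} (u : Fin L → Letter m) : Prop :=
  perm u = 1 ∧ (∀ U : Fin m → Bool, costS (toL u) (pat U) = 0) ∧
    ∃ b : SA m, wa m (toL u) = 1 + (T 4 - 1 : ℤ[T;T⁻¹]) ^ n • b

theorem exists_fn {α : Type*} (l : List α) {N : ℕ} (h : l.length = N) :
    ∃ w : Fin N → α, List.ofFn w = l := by
  subst h
  exact ⟨l.get, List.ofFn_get l⟩

theorem invW_inj {w w' : List (Letter m)} (h : invW w = invW w') : w = w' := by
  unfold invW at h
  have h1 := List.reverse_injective h
  have h2 : Function.Injective (fun x : Letter m => ((!x.1, x.2) : Letter m)) := by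
    rintro ⟨a, b⟩ ⟨a', b'⟩ h
    simp only [Prod.mk.injEq, Bool.not_eq_eq_eq_not] at h
    obtain ⟨h3, h4⟩ := h
    rw [Bool.not_not] at h3
    rw [h3, h4]
  exact (List.map_injective_iff.2 h2) h1

open Classical in
theorem good_count (hm : 0 < m) : ∃ (κ : ℕ) (K : ℝ), 0 ≤ K ∧ ∀ n N : ℕ, 2 ≤ N →
    (((2 * (m - 1) : ℕ) : ℝ) ^ (2 * N)) ≤ ((2 * (Real.exp K * (N : ℝ) ^ n) + 1) ^ (κ * n) *
        (m.factorial * (2 * N + 1) ^ (2 ^ m))) *
          ((univ.filter (fun u : Fin (2 * N) → Letter m => Good n u)).card : ℝ) := by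
  obtain ⟨κ, K, hK, h⟩ := classes hm
  refine ⟨κ, K, hK, fun n N hN => ?_⟩
  obtain ⟨Dt, hDt, cl, h1, h2⟩ := h n N hN
  have h3 := pairs cl
  have h4 : ∀ p : (Fin N → Letter m) × (Fin N → Letter m), ∃ u : Fin (2 * N) → Letter m,
      List.ofFn u = List.ofFn p.1 ++ invW (List.ofFn p.2) := by
    intro p
    apply exists_fn
    rw [List.length_append, List.length_ofFn]
    unfold invW
    rw [List.length_reverse, List.length_map, List.length_ofFn]
    ring
  choose φ hφ using h4
  have h5 : ((univ : Finset ((Fin N → Letter m) × (Fin N → Letter m))).filter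
      fun p => cl p.1 = cl p.2).card ≤ (univ.filter (fun u : Fin (2 * N) → Letter m => Good n u)).card := by
    apply Finset.card_le_card_of_injOn φ
    · intro p hp
      rw [Finset.mem_coe, Finset.mem_filter] at hp
      rw [Finset.mem_coe, Finset.mem_filter]
      refine ⟨Finset.mem_univ _, ?_⟩
      obtain ⟨e1, e2, b, e3⟩ := h2 _ _ hp.2
      have hL : toL (φ p) = toL p.1 ++ invL (toL p.2) := by
        rw [toL_eq, hφ, toN_append, toN_inv, ← toL_eq, ← toL_eq]
      have hpL : permL (toL p.1) = permL (toL p.2) := by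
        rw [toL_eq, toL_eq]; exact permL_eq e1
      have hv : ∀ x ∈ toL p.2, x.2 + 1 < m := by
        rw [toL_eq]; exact toN_lt _
      refine ⟨?_, fun U => ?_, ?_⟩
      · rw [← perm_eqW, hφ]
        ext i
        have h6 := (permL_toN (List.ofFn p.1 ++ invW (List.ofFn p.2))).1 i
        rw [← h6, toN_append, toN_inv, ← toL_eq, ← toL_eq, permL_append, hpL, permL_inv]
        rfl
      · rw [hL, costS_append, e2 U, hpL, costS_inv]
        ring
      · refine ⟨b * wa m (invL (toL p.2)), ?_⟩
        rw [hL, wa_append, e3, add_mul, wa_inv _ hv, smul_mul_assoc]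
    · intro p _ q _ hpq
      have h6 := hφ p
      rw [hpq, hφ q] at h6
      have h7 := List.append_inj h6 (by rw [List.length_ofFn, List.length_ofFn])
      exact Prod.ext (List.ofFn_injective h7.1).symm (List.ofFn_injective (invW_inj h7.2)).symm
  have h6 : (((2 * (m - 1) : ℕ) : ℝ) ^ (2 * N)) = ((Fintype.card (Fin N → Letter m) : ℕ) : ℝ) ^ 2 := by
    rw [Fintype.card_fun, Fintype.card_fin]
    have : Fintype.card (Letter m) = 2 * (m - 1) := by simp
    rw [this]
    push_cast
    rw [← pow_mul, mul_comm N 2]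
  rw [h6]
  have h7 : ((Fintype.card (Fin N → Letter m) : ℕ) : ℝ) ^ 2 ≤ (Fintype.card Dt : ℝ) *
      ((((univ : Finset ((Fin N → Letter m) × (Fin N → Letter m))).filter
        fun p => cl p.1 = cl p.2).card : ℕ) : ℝ) := by
    exact_mod_cast h3
  refine h7.trans ?_
  refine mul_le_mul h1 (by exact_mod_cast h5) (by positivity) (by positivity)

end Pool.Agent.T6.H96.KT
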