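import Pool.Agent.T6.H96.KT.Cls
import Pool.Agent.Y463.KN.Basic

/-!
# Final estimates
-/

set_option autoImplicit false

namespace Pool.Agent.T6.H96.KT

open Finset LaurentPolynomial Pool.Agent.H891R2.Jones Pool.Agent.W639.RB Pool.Agent.Y463.SK
  Pool.Agent.Y463.MP Pool.Agent.H832R3.TW

variable {m : ℕ}

theorem good_dvd (hm : 0 < m) {n L : ℕ} {u : Fin L → Letter m} (h : Good n u) (O : Outer m) :
    (T 4 - 1 : ℤ[T;T⁻¹]) ^ n ∣ (diagram O u).fPoly - O.close.fPoly := by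
  obtain ⟨_, h2, b, h3⟩ := h
  have h4 : ∀ x ∈ toL u, x.2 + 1 < m := by rw [toL_eq]; exact toN_lt _
  exact ff_dvd hm O (toL u) [] h4 (by simp) (by rw [h2 O.up]; rfl) _ b (by rw [h3, wa_nil])

theorem good_knotoid {n L : ℕ} {u : Fin L → Letter m} (h : Good n u) (O : Outer m)
    (hO : IsKnotoid O.close) : IsKnotoid (diagram O u) := by
  apply Pool.Agent.Y463.KN.knotoid_diagram O hO u
  apply Pool.Agent.Y463.KN.up_perm O u
  intro j
  rw [h.1]; rfl

/-- an elementary bound -/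
theorem cl_bound {κ k n N : ℕ} {K C F : ℝ} (hK : 0 ≤ K) (hF : 1 ≤ F) (hn : 1 ≤ n) (hN : 2 ≤ N)
    (hC1 : 3 * Real.exp K + 3 * F ≤ C) (hC2 : (κ : ℝ) + k + 1 ≤ C) :
    (2 * (Real.exp K * (N : ℝ) ^ n) + 1) ^ (κ * n) * (F * (2 * N + 1) ^ k) ≤
      (C * N) ^ (C * (n : ℝ) ^ 2) := by
  have hN2 : (2 : ℝ) ≤ N := by exact_mod_cast hN
  have hn1 : (1 : ℝ) ≤ n := by exact_mod_cast hn
  have he : 1 ≤ Real.exp K := Real.one_le_exp hK
  have hC3 : 3 * Real.exp K ≤ C := by linarith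
  have hC4 : 3 * F ≤ C := by linarith
  have hCpos : 1 ≤ C := by linarith
  have hCN : 1 ≤ C * N := by nlinarith
  have h1 : 2 * (Real.exp K * (N : ℝ) ^ n) + 1 ≤ (C * N) ^ n := by
    have e1 : (1 : ℝ) ≤ (N : ℝ) ^ n := one_le_pow₀ (by linarith)
    have e2 : C ≤ C ^ n := le_self_pow₀ hCpos (by omega)
    rw [mul_pow]
    nlinarith [mul_le_mul_of_nonneg_right (hC3.trans e2) (by positivity : (0 : ℝ) ≤ (N : ℝ) ^ n)]
  have h2 : (2 * (Real.exp K * (N : ℝ) ^ n) + 1) ^ (κ * n) ≤ (C * N) ^ (n * (κ * n)) := by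
    rw [pow_mul (C * (N : ℝ))]
    exact pow_le_pow_left₀ (by positivity) h1 _
  have h3 : F * (2 * (N : ℝ) + 1) ^ k ≤ (C * N) ^ ((k + 1) * n ^ 2) := by
    have e1 : (2 * (N : ℝ) + 1) ≤ C * N := by nlinarith
    have e2 : F ≤ C * N := by nlinarith
    have e3 : F * (2 * (N : ℝ) + 1) ^ k ≤ (C * N) ^ (k + 1) := by
      rw [pow_succ, mul_comm]
      exact mul_le_mul (pow_le_pow_left₀ (by positivity) e1 k) e2 (by linarith) (by positivity)
    refine e3.trans (pow_le_pow_right₀ hCN ?_)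
    exact Nat.le_mul_of_pos_right _ (by positivity)
  refine (mul_le_mul h2 h3 (by positivity) (by positivity)).trans ?_
  rw [← pow_add, ← Real.rpow_natCast]
  apply Real.rpow_le_rpow_of_exponent_le hCN
  push_cast
  nlinarith [sq_nonneg (n : ℝ)]

open Classical in
/-- **Many words.** -/
theorem many (hm : 0 < m) : ∃ C0 : ℝ, 1 ≤ C0 ∧ ∀ C : ℝ, C0 ≤ C → ∀ n N : ℕ, 1 ≤ n → 2 ≤ N →
    (C * N) ^ (-(C * (n : ℝ) ^ 2)) * ((2 * (m - 1) : ℕ) : ℝ) ^ (2 * N) ≤
      ((univ.filter (fun u : Fin (2 * N) → Letter m => Good n u)).card : ℝ) := by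
  obtain ⟨κ, K, hK, h⟩ := good_count hm
  have hF : (1 : ℝ) ≤ m.factorial := by exact_mod_cast Nat.one_le_iff_ne_zero.2 (Nat.factorial_ne_zero m)
  refine ⟨3 * Real.exp K + 3 * m.factorial + ((κ : ℝ) + ((2 ^ m : ℕ) : ℝ) + 1), ?_, ?_⟩
  · have := Real.exp_pos K
    have h1 : (0 : ℝ) ≤ ((2 ^ m : ℕ) : ℝ) := Nat.cast_nonneg _
    have h2 : (0 : ℝ) ≤ (κ : ℝ) := Nat.cast_nonneg _
    linarith
  intro C hC n N hn hN
  have h0 := Real.exp_pos K
  have h1 : (0 : ℝ) ≤ ((2 ^ m : ℕ) : ℝ) := Nat.cast_nonneg _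
  have h2 : (0 : ℝ) ≤ (κ : ℝ) := Nat.cast_nonneg _
  have h3 := cl_bound (κ := κ) (k := 2 ^ m) (C := C) hK hF hn hN (by linarith) (by linarith)
  have h4 := h n N hN
  have hN0 : (0 : ℝ) < N := by exact_mod_cast (by omega : 0 < N)
  have hCpos : 0 < C := by linarith
  have hP : 0 < (C * N) ^ (C * (n : ℝ) ^ 2) := Real.rpow_pos_of_pos (by positivity) _
  rw [Real.rpow_neg (by positivity), inv_mul_le_iff₀ hP]
  exact h4.trans (mul_le_mul_of_nonneg_right h3 (Nat.cast_nonneg _))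

open Classical in
/-- rare values modulo `M` -/
theorem rare (hm : 3 ≤ m) : ∃ C r : ℝ, 1 ≤ C ∧ 0 < r ∧ r < 1 ∧ ∀ M : ℕ, 2 ≤ M →
    ∀ (O : Outer m) (g : ℤ[T;T⁻¹]) (L : ℕ),
      ((univ.filter (fun w : Fin L → Letter m => (M : ℤ[T;T⁻¹]) ∣ (diagram O w).fPoly - g)).card : ℝ) ≤
        C * r ^ L * ((2 * (m - 1) : ℕ) : ℝ) ^ L := by
  set D : ℕ := 2 * (m - 1) with hD
  have hDpos : (0:ℝ) < D := by
    have : 0 < D := by omega
    exact_mod_cast this
  obtain ⟨r, hr0, hr1, ⟨C, hC⟩, _⟩ := final hm (fun _ : Letter m => (1:ℝ) / D) (fun _ => by positivity) (by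
    rw [Finset.sum_const, Finset.card_univ, Pool.Agent.W705.JR.card_letter, nsmul_eq_mul, ← hD]
    field_simp)
  refine ⟨max C 1, r, le_max_right _ _, hr0, hr1, fun M hM O g L => ?_⟩
  have h1 := hC M hM O g L
  have h2 : ((univ.filter (fun w : Fin L → Letter m =>
      (M : ℤ[T;T⁻¹]) ∣ (diagram O w).fPoly - g)).card : ℝ) * (1 / (D:ℝ)) ^ L =
      Pr (fun _ => 1 / (D:ℝ)) L (fun w => (M : ℤ[T;T⁻¹]) ∣ (diagram O w).fPoly - g) := by
    unfold Pr
    rw [← nsmul_eq_mul, ← Finset.sum_const, Finset.sum_filter]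
    refine Finset.sum_congr rfl fun w _ => ?_
    split_ifs
    · rw [Finset.prod_const, Finset.card_univ, Fintype.card_fin]
    · rfl
  rw [← h2] at h1
  have hDn : (0:ℝ) < (D:ℝ) ^ L := by positivity
  rw [div_pow, one_pow, mul_one_div, div_le_iff₀ hDn] at h1
  refine h1.trans ?_
  refine mul_le_mul_of_nonneg_right (mul_le_mul_of_nonneg_right (le_max_left _ _) (by positivity)) (by positivity)

open Classical in
theorem main (hm : 3 ≤ m) : ∃ C c : ℝ, 0 < C ∧ 0 < c ∧ ∀ n N : ℕ, 1 ≤ n → 2 ≤ N →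
    (C * N) ^ (-(C * (n : ℝ) ^ 2)) * ((2 * (m - 1) : ℕ) : ℝ) ^ (2 * N) ≤
      ((univ.filter (fun u : Fin (2 * N) → Letter m => Good n u)).card : ℝ) ∧
    (C * (n : ℝ) ^ 2 * Real.log N ≤ N → ∀ (O : Outer m) (M : ℕ), 2 ≤ M → Real.exp (c * N) ≤
      (((univ.filter (fun u : Fin (2 * N) → Letter m => Good n u)).image (fun u =>
        Ideal.Quotient.mk (Ideal.span {(M : ℤ[T;T⁻¹])}) (diagram O u).fPoly)).card : ℝ)) := by
  obtain ⟨C0, hC0, hmany⟩ := many (m := m) (by omega)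
  obtain ⟨C1, r, hC1, hr0, hr1, hrare⟩ := rare hm
  set D : ℕ := 2 * (m - 1) with hD
  have hDpos : (0:ℝ) < D := by
    have : 0 < D := by omega
    exact_mod_cast this
  set c : ℝ := - Real.log r with hc
  have hc0 : 0 < c := by
    have := Real.log_neg hr0 hr1
    linarith
  have hl2 : 0 < Real.log 2 := Real.log_pos (by norm_num)
  set B : ℝ := C0 * (Real.log C0 / Real.log 2 + 1) + Real.log C1 / Real.log 2 with hB
  have hlC0 : 0 ≤ Real.log C0 := Real.log_nonneg hC0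
  have hlC1 : 0 ≤ Real.log C1 := Real.log_nonneg hC1
  have hB0 : 0 < B := by positivity
  refine ⟨C0 + B / c, c, by positivity, hc0, fun n N hn hN => ⟨?_, ?_⟩⟩
  · exact hmany _ (by have : 0 ≤ B / c := by positivity
                      linarith) n N hn hN
  intro hNn O M hM
  have hN0 : (0 : ℝ) < N := by exact_mod_cast (by omega : 0 < N)
  have hN2 : (2 : ℝ) ≤ N := by exact_mod_cast hN
  have hn1 : (1 : ℝ) ≤ n := by exact_mod_cast hn
  have hn2 : (1 : ℝ) ≤ (n : ℝ) ^ 2 := one_le_pow₀ hn1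
  set W := univ.filter (fun u : Fin (2 * N) → Letter m => Good n u) with hW
  set f : (Fin (2 * N) → Letter m) → (ℤ[T;T⁻¹] ⧸ Ideal.span {(M : ℤ[T;T⁻¹])}) := fun u =>
    Ideal.Quotient.mk (Ideal.span {(M : ℤ[T;T⁻¹])}) (diagram O u).fPoly with hf
  have h1 := hmany C0 le_rfl n N hn hN
  have h2 : (W.card : ℝ) ≤ ((W.image f).card : ℝ) * (C1 * r ^ (2 * N) * (D:ℝ) ^ (2 * N)) := by
    have e1 : (W.card : ℝ) = ∑ q ∈ W.image f, ((W.filter (fun u => f u = q)).card : ℝ) := by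
      rw [← Nat.cast_sum, Finset.card_eq_sum_card_image f]
    rw [e1, ← nsmul_eq_mul]
    refine Finset.sum_le_card_nsmul _ _ _ fun q hq => ?_
    obtain ⟨u0, _, rfl⟩ := Finset.mem_image.1 hq
    refine le_trans ?_ (hrare M hM O (diagram O u0).fPoly (2 * N))
    norm_cast
    refine Finset.card_le_card fun u hu => ?_
    rw [Finset.mem_filter] at hu
    rw [Finset.mem_filter]
    refine ⟨Finset.mem_univ _, ?_⟩
    have e2 := hu.2
    simp only [hf] at e2
    rw [Ideal.Quotient.eq, Ideal.mem_span_singleton] at e2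
    exact e2
  have hDn : (0:ℝ) < (D:ℝ) ^ (2 * N) := by positivity
  have h3 : (C0 * N) ^ (-(C0 * (n : ℝ) ^ 2)) ≤ ((W.image f).card : ℝ) * (C1 * r ^ (2 * N)) := by
    have := h1.trans h2
    rw [← mul_assoc] at this
    exact le_of_mul_le_mul_right this hDn
  have h4 : Real.exp (c * N) * (C1 * r ^ (2 * N)) ≤ (C0 * N) ^ (-(C0 * (n : ℝ) ^ 2)) := by
    have e1 : (r : ℝ) ^ (2 * N) = Real.exp (-(2 * c * N)) := by
      have e0 : Real.exp (Real.log r) = r := Real.exp_log hr0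
      calc (r : ℝ) ^ (2 * N) = (Real.exp (Real.log r)) ^ (2 * N) := by rw [e0]
        _ = Real.exp (((2 * N : ℕ) : ℝ) * Real.log r) := by rw [← Real.exp_nat_mul]
        _ = _ := by
          congr 1
          push_cast
          rw [hc]
          ring
    have e2 : C1 = Real.exp (Real.log C1) := (Real.exp_log (by linarith)).symm
    have e3 : (C0 * N : ℝ) ^ (-(C0 * (n : ℝ) ^ 2)) =
        Real.exp (Real.log (C0 * N) * (-(C0 * (n : ℝ) ^ 2))) := Real.rpow_def_of_pos (by positivity) _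
    rw [e1, e3, e2, ← Real.exp_add, ← Real.exp_add]
    apply Real.exp_le_exp.2
    rw [Real.log_mul (by positivity) (by positivity)]
    have hlN : Real.log 2 ≤ Real.log N := Real.log_le_log (by norm_num) hN2
    have hlN0 : 0 < Real.log N := by linarith
    have g1 : Real.log C0 ≤ Real.log C0 / Real.log 2 * Real.log N := by
      rw [div_mul_eq_mul_div, le_div_iff₀ hl2]
      exact mul_le_mul_of_nonneg_left hlN hlC0
    have g2 : Real.log C1 ≤ Real.log C1 / Real.log 2 * Real.log N := by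
      rw [div_mul_eq_mul_div, le_div_iff₀ hl2]
      exact mul_le_mul_of_nonneg_left hlN hlC1
    have g3 : (n : ℝ) ^ 2 * Real.log N * (B / c) ≤ N := by
      have : 0 ≤ C0 * (n : ℝ) ^ 2 * Real.log N := by positivity
      nlinarith
    have g4 : (n : ℝ) ^ 2 * Real.log N * B ≤ c * N := by
      have := mul_le_mul_of_nonneg_left g3 hc0.le
      have e5 : c * ((n : ℝ) ^ 2 * Real.log N * (B / c)) = (n : ℝ) ^ 2 * Real.log N * B := by
        field_simp
      rwa [e5] at this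
    have g5 : (Real.log C0 + Real.log N) * (C0 * (n : ℝ) ^ 2) + Real.log C1 ≤
        (n : ℝ) ^ 2 * Real.log N * B := by
      have k1 : (Real.log C0 + Real.log N) * (C0 * (n : ℝ) ^ 2) ≤
          (Real.log C0 / Real.log 2 * Real.log N + Real.log N) * (C0 * (n : ℝ) ^ 2) :=
        mul_le_mul_of_nonneg_right (by linarith) (by positivity)
      have k2 : Real.log C1 ≤ (Real.log C1 / Real.log 2 * Real.log N) * (n : ℝ) ^ 2 := by
        have : 0 ≤ Real.log C1 / Real.log 2 * Real.log N := by positivity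
        nlinarith
      have k3 : (n : ℝ) ^ 2 * Real.log N * B =
          (Real.log C0 / Real.log 2 * Real.log N + Real.log N) * (C0 * (n : ℝ) ^ 2) +
          (Real.log C1 / Real.log 2 * Real.log N) * (n : ℝ) ^ 2 := by
        rw [hB]; ring
      rw [k3]
      exact add_le_add k1 k2
    linarith
  have h5 := h4.trans h3
  exact le_of_mul_le_mul_right h5 (by positivity)

open Classical in
/-- a system of representatives -/
theorem representatives {α β : Type*} (W : Finset α) (f : α → β) (I : Finset β) (hI : I ⊆ W.image f) :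
    ∃ V ⊆ W, V.card = I.card ∧ (∀ u ∈ V, f u ∈ I) ∧ ∀ u ∈ V, ∀ v ∈ V, u ≠ v → f u ≠ f v := by
  have h1 : ∀ q : I, ∃ u ∈ W, f u = q := fun q => Finset.mem_image.1 (hI q.2)
  choose g hg hf using h1
  refine ⟨univ.image g, ?_, ?_, ?_, ?_⟩
  · intro u hu
    obtain ⟨q, _, rfl⟩ := Finset.mem_image.1 hu
    exact hg q
  · rw [Finset.card_image_of_injective]
    · simp
    · intro q q' h
      apply Subtype.ext
      rw [← hf q, ← hf q', h]
  · intro u hu
    obtain ⟨q, _, rfl⟩ := Finset.mem_image.1 hu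
    rw [hf]; exact q.2
  · intro u hu v hv huv
    obtain ⟨q, _, rfl⟩ := Finset.mem_image.1 hu
    obtain ⟨q', _, rfl⟩ := Finset.mem_image.1 hv
    rw [hf, hf]
    intro h
    exact huv (by rw [Subtype.ext h])

open Classical in
theorem main2 (hm : 3 ≤ m) : ∃ C c : ℝ, 0 < C ∧ 0 < c ∧ ∀ n N : ℕ, 1 ≤ n → 2 ≤ N →
    ∃ W : Finset (Fin (2 * N) → Letter m),
      (C * N) ^ (-(C * (n : ℝ) ^ 2)) * ((2 * (m - 1) : ℕ) : ℝ) ^ (2 * N) ≤ W.card ∧
      (∀ u ∈ W, perm u = 1 ∧ ∀ O : Outer m, (IsKnotoid O.close → IsKnotoid (diagram O u)) ∧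
        (T 4 - 1 : ℤ[T;T⁻¹]) ^ n ∣ (diagram O u).fPoly - O.close.fPoly) ∧
      (C * (n : ℝ) ^ 2 * Real.log N ≤ N → ∀ (O : Outer m) (M : ℕ), 2 ≤ M →
        ∃ V ⊆ W, Real.exp (c * N) ≤ V.card ∧
          (∀ u ∈ V, ¬ (M : ℤ[T;T⁻¹]) ∣ (diagram O u).fPoly - O.close.fPoly) ∧
          ∀ u ∈ V, ∀ v ∈ V, u ≠ v → ¬ (M : ℤ[T;T⁻¹]) ∣ (diagram O u).fPoly - (diagram O v).fPoly) := by
  obtain ⟨C, c, hC, hc, h⟩ := main hm
  have hl2 : 0 < Real.log 2 := Real.log_pos (by norm_num)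
  obtain ⟨C0, hC0, hmany⟩ := many (m := m) (by omega)
  set C' : ℝ := C0 + C + 2 / (c * Real.log 2) with hC'
  have hd : 0 < 2 / (c * Real.log 2) := by positivity
  refine ⟨C', c / 2, by positivity, by positivity, fun n N hn hN => ?_⟩
  have hN0 : (0 : ℝ) < N := by exact_mod_cast (by omega : 0 < N)
  have hN2 : (2 : ℝ) ≤ N := by exact_mod_cast hN
  have hn1 : (1 : ℝ) ≤ n := by exact_mod_cast hn
  have hn2 : (1 : ℝ) ≤ (n : ℝ) ^ 2 := one_le_pow₀ hn1
  refine ⟨univ.filter (fun u : Fin (2 * N) → Letter m => Good n u), hmany C' (by linarith) n N hn hN,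
    ?_, ?_⟩
  · intro u hu
    rw [Finset.mem_filter] at hu
    exact ⟨hu.2.1, fun O => ⟨good_knotoid hu.2 O, good_dvd (by omega) hu.2 O⟩⟩
  · intro hNn O M hM
    have hlN : Real.log 2 ≤ Real.log N := Real.log_le_log (by norm_num) hN2
    have hlN0 : 0 < Real.log N := by linarith
    have hp : 0 < (n : ℝ) ^ 2 * Real.log N := by positivity
    have h1 : C * (n : ℝ) ^ 2 * Real.log N ≤ N := by
      refine le_trans ?_ hNn
      rw [mul_assoc, mul_assoc]
      exact mul_le_mul_of_nonneg_right (by linarith) hp.le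
    have h2 : 2 ≤ c * N := by
      have e1 : 2 / (c * Real.log 2) * ((n : ℝ) ^ 2 * Real.log N) ≤ N := by
        refine le_trans ?_ hNn
        rw [mul_assoc]
        exact mul_le_mul_of_nonneg_right (by linarith) hp.le
      have e2 : Real.log 2 ≤ (n : ℝ) ^ 2 * Real.log N := by nlinarith
      have e3 : 2 / (c * Real.log 2) * Real.log 2 ≤ N := (mul_le_mul_of_nonneg_left e2 hd.le).trans e1
      have e4 : 2 / (c * Real.log 2) * Real.log 2 = 2 / c := by field_simp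
      rw [e4, div_le_iff₀ hc] at e3
      linarith
    set f : (Fin (2 * N) → Letter m) → (ℤ[T;T⁻¹] ⧸ Ideal.span {(M : ℤ[T;T⁻¹])}) := fun u =>
      Ideal.Quotient.mk (Ideal.span {(M : ℤ[T;T⁻¹])}) (diagram O u).fPoly with hf
    set W := univ.filter (fun u : Fin (2 * N) → Letter m => Good n u) with hW
    have h3 : Real.exp (c * N) ≤ ((W.image f).card : ℝ) := (h n N hn hN).2 h1 O M hM
    obtain ⟨V, hV, hV1, hV2, hV3⟩ := representatives W f
      ((W.image f).erase (Ideal.Quotient.mk (Ideal.span {(M : ℤ[T;T⁻¹])}) O.close.fPoly))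
      (Finset.erase_subset _ _)
    refine ⟨V, hV, ?_, ?_, ?_⟩
    · have h4 : (W.image f).card ≤ V.card + 1 := by
        rw [hV1]
        have := Finset.pred_card_le_card_erase (s := W.image f)
          (a := Ideal.Quotient.mk (Ideal.span {(M : ℤ[T;T⁻¹])}) O.close.fPoly)
        omega
      have h5 : ((W.image f).card : ℝ) ≤ V.card + 1 := by exact_mod_cast h4
      have h6 : Real.exp (c * N) = Real.exp (c / 2 * N) * Real.exp (c / 2 * N) := by
        rw [← Real.exp_add]; congr 1; ring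
      have h7 : 2 ≤ Real.exp (c / 2 * N) := by
        have := Real.add_one_le_exp (c / 2 * N)
        linarith
      nlinarith
    · intro u hu h4
      have h5 := hV2 u hu
      rw [Finset.mem_erase] at h5
      apply h5.1
      simp only [hf]
      rw [Ideal.Quotient.eq, Ideal.mem_span_singleton]
      exact h4
    · intro u hu v hv huv h4
      apply hV3 u hu v hv huv
      simp only [hf]
      rw [Ideal.Quotient.eq, Ideal.mem_span_singleton]
      exact h4

end Pool.Agent.T6.H96.KT
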