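import Pool.Agent.T6.H96.KT.Gr

/-!
# Words equal modulo `(A^4 - 1)^n` have congruent normalised brackets in every box
-/

set_option autoImplicit false

namespace Pool.Agent.T6.H96.KT

open Finset LaurentPolynomial Pool.Agent.H891R2.Jones Pool.Agent.W639.RB Pool.Agent.Y463.SK

variable {m : ℕ}

theorem ev_sgn (N : ℕ) (hN : 3 ≤ N) (c : ℤ) :
    ev N hN (if Even c then 1 else -1) = if Even c then (1 : ℂ) else -1 := by
  split_ifs <;> simp

theorem sgn_sq (c : ℤ) : (if Even c then (1 : ℂ) else -1) * (if Even c then (1 : ℂ) else -1) = 1 := by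
  split_ifs <;> simp

/-- the functional of an outside has values in the Laurent polynomials -/
theorem Fn_repr (hm : 0 < m) (O : Outer m) (b : SA m) : ∃ g : ℤ[T;T⁻¹],
    ∀ N : {N : ℕ // 3 ≤ N}, Fn O N [] (b : BB m) = (N.1 : ℂ) * ev N.1 N.2 g := by
  have hb := span_words b
  induction hb using Submodule.span_induction with
  | mem b hb =>
    obtain ⟨v, rfl⟩ := hb
    refine ⟨(if Even (owr O + costS (toN v) (pat O.up)) then 1 else -1) *
      T (3 * (owr O + costS (toN v) (pat O.up))) * ff O (toN v), fun N => ?_⟩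
    have h1 := ev_ff hm O (toN v) (toN_lt v) N
    have hA := Ar_ne N.1 N.2
    have h2 : Fn O N [] ((wa m (toN v) : SA m) : BB m) =
        Zg (Ar N.1) N.1 O (rho (Ar N.1) m N.1 (toN v) (fun x y => ind (x = y))) := by
      unfold Fn
      rw [wa_coe, bb_apply]
      rfl
    rw [h2, map_mul, map_mul, ev_sgn, ev_T]
    have h3 : ∀ (a b c s A B : ℂ), a * b = s * B * c → s * s = 1 → A * B = 1 → c = a * (s * A * b) := by
      intro a b c s A B e1 e2 e3
      linear_combination (-(A * B) * c) * e2 + (-c) * e3 + (-(s * A)) * e1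
    have h5 := h3 _ _ _ _ ((Ar N.1) ^ (3 * (owr O + costS (toN v) (pat O.up)))) _ h1 (sgn_sq _) (by
      rw [← zpow_add₀ hA]
      have : 3 * (owr O + costS (toN v) (pat O.up)) + -3 * (owr O + costS (toN v) (pat O.up)) = 0 := by ring
      rw [this, zpow_zero])
    exact h5
  | zero => exact ⟨0, fun N => by
      have : ((0 : SA m) : BB m) = 0 := rfl
      rw [this, Fn_zero, map_zero, mul_zero]⟩
  | add a b _ _ ha hb =>
    obtain ⟨g, hg⟩ := ha
    obtain ⟨g', hg'⟩ := hb
    exact ⟨g + g', fun N => by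
      have : ((a + b : SA m) : BB m) = (a : BB m) + (b : BB m) := rfl
      rw [this, Fn_add, hg, hg', map_add]; ring⟩
  | smul r a _ ha =>
    obtain ⟨g, hg⟩ := ha
    exact ⟨r * g, fun N => by
      have : ((r • a : SA m) : BB m) = r • (a : BB m) := rfl
      rw [this, Fn_smul, hg, map_mul]; ring⟩

theorem ff_dvd (hm : 0 < m) (O : Outer m) (w w' : List (Bool × ℕ)) (hw : ∀ x ∈ w, x.2 + 1 < m)
    (hw' : ∀ x ∈ w', x.2 + 1 < m) (hc : costS w (pat O.up) = costS w' (pat O.up)) (P : ℤ[T;T⁻¹])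
    (b : SA m) (h : wa m w = wa m w' + P • b) : P ∣ ff O w - ff O w' := by
  obtain ⟨g, hg⟩ := Fn_repr hm O b
  set κ := owr O + costS w (pat O.up) with hκ
  have hκ' : owr O + costS w' (pat O.up) = κ := by rw [hκ, hc]
  refine ⟨(if Even κ then 1 else -1) * T (-3 * κ) * g, ?_⟩
  rw [← sub_eq_zero]
  apply eq_zero_of_ev
  intro N hN
  have hNC : (N : ℂ) ≠ 0 := by
    rw [Nat.cast_ne_zero]; omega
  have h1 := ev_ff hm O w hw ⟨N, hN⟩
  have h2 := ev_ff hm O w' hw' ⟨N, hN⟩
  rw [hκ'] at h2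
  rw [← hκ] at h1
  simp only at h1 h2
  have h3 : Zg (Ar N) N O (rho (Ar N) m N w (fun x y => ind (x = y))) =
      Zg (Ar N) N O (rho (Ar N) m N w' (fun x y => ind (x = y))) + ev N hN P * ((N : ℂ) * ev N hN g) := by
    have e1 : Fn O ⟨N, hN⟩ [] (bb m w) = Fn O ⟨N, hN⟩ [] (bb m w') +
        ev N hN P * ((N : ℂ) * ev N hN g) := by
      have e2 : bb m w = bb m w' + P • (b : BB m) := by
        rw [← wa_coe, ← wa_coe, h]; rfl
      rw [e2, Fn_add, Fn_smul, hg]
    have e3 : ∀ v, Fn O ⟨N, hN⟩ [] (bb m v) = Zg (Ar N) N O (rho (Ar N) m N v (fun x y => ind (x = y))) := by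
      intro v
      unfold Fn
      rw [bb_apply]
      rfl
    rwa [e3, e3] at e1
  have h4 : (N : ℂ) * ev N hN (ff O w - ff O w' - P * ((if Even κ then 1 else -1) * T (-3 * κ) * g)) = 0 := by
    rw [map_sub, map_sub, map_mul, map_mul, map_mul, ev_sgn, ev_T, mul_sub, mul_sub, h1, h2, h3]
    ring
  exact (mul_eq_zero.1 h4).resolve_left hNC

end Pool.Agent.T6.H96.KT
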