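import Pool.Agent.Y463.SK.TLSpan

/-!
# Words with the same permutation are equal up to a unit modulo `A^4 - 1`
-/

set_option autoImplicit false

namespace Pool.Agent.T6.H96.KT

open Pool.Agent.Y463.SK

section ring
variable {Q : Type*} [Ring Q] {z : Q}

theorem cox_sq (hz : ∀ x, z * x = x * z) (hz2 : z * z = 1) (x : Q) (hx : x * x = -(2 * (z * x))) :
    -(z + x) * -(z + x) = 1 := by
  have h1 : -(z + x) * -(z + x) = z * z + z * x + x * z + x * x := by noncomm_ring
  rw [h1, hz2, hx, ← hz x]
  noncomm_ring

theorem cox_br (hz : ∀ x, z * x = x * z) (hz2 : z * z = 1) (x y : Q) (hx : x * x = -(2 * (z * x)))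
    (hy : y * y = -(2 * (z * y))) (hxy : x * y * x = x) (hyx : y * x * y = y) :
    -(z + x) * -(z + y) * -(z + x) = -(z + y) * -(z + x) * -(z + y) := by
  have key : ∀ x y : Q, x * x = -(2 * (z * x)) → x * y * x = x →
      -(z + x) * -(z + y) * -(z + x) = -(z + y + x + (z * (x * y) + z * (y * x))) := by
    intro x y hx hxy
    have h1 : -(z + x) * -(z + y) * -(z + x) = -(z * z * z + z * z * x + z * (y * z) + z * (y * x) +
        (x * z) * z + (x * z) * x + x * (y * z) + x * y * x) := by noncomm_ring
    have e1 : x * z = z * x := (hz x).symm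
    have e2 : y * z = z * y := (hz y).symm
    have e3 : x * (z * y) = z * (x * y) := by rw [← mul_assoc, e1, mul_assoc]
    have e4 : z * x * z = x := by rw [mul_assoc, e1, ← mul_assoc, hz2, one_mul]
    have e5 : z * x * x = -(2 * x) := by
      rw [mul_assoc, hx]
      have : z * -(2 * (z * x)) = -(2 * (z * z * x)) := by noncomm_ring
      rw [this, hz2, one_mul]
    have e6 : z * (z * y) = y := by rw [← mul_assoc, hz2, one_mul]
    rw [h1, e1, e2, e3, e4, e5, e6, hz2, one_mul, one_mul, hxy]
    noncomm_ring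
  rw [key x y hx hxy, key y x hy hyx]
  abel

theorem cox_far (hz : ∀ x, z * x = x * z) (x y : Q) (hxy : x * y = y * x) :
    -(z + x) * -(z + y) = -(z + y) * -(z + x) := by
  have e1 : x * z = z * x := (hz x).symm
  have e2 : y * z = z * y := (hz y).symm
  have h1 : -(z + x) * -(z + y) = z * z + z * y + x * z + x * y := by noncomm_ring
  have h2 : -(z + y) * -(z + x) = z * z + z * x + y * z + y * x := by noncomm_ring
  rw [h1, h2, e1, e2, hxy]
  abel

end ring

/-- words with the same permutation have the same product of Coxeter generators -/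
theorem cox_eq {M : Type*} [Monoid M] {m : ℕ} {s : ℕ → M} (h : IsCox m s) (w w' : List ℕ)
    (hw : ∀ i ∈ w, i + 1 < m) (hw' : ∀ i ∈ w', i + 1 < m)
    (hp : (w.map (fun i => Equiv.swap i (i+1))).prod = (w'.map (fun i => Equiv.swap i (i+1))).prod) :
    (w.map s).prod = (w'.map s).prod := by
  have h1 : ∀ v : List ℕ, (∀ i ∈ v, i + 1 < m) → (v.reverse.map s).prod * (v.map s).prod = 1 := by
    intro v
    induction v with
    | nil => intro _; simp
    | cons i v ih =>
      intro hv
      rw [List.reverse_cons, List.map_append, List.prod_append, List.map_cons, List.prod_cons]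
      have h2 := h.sq i (hv i List.mem_cons_self)
      simp only [List.map_cons, List.map_nil, List.prod_cons, List.prod_nil, mul_one]
      rw [mul_assoc, ← mul_assoc (s i) (s i), h2, one_mul]
      exact ih (fun j hj => hv j (List.mem_cons_of_mem _ hj))
  have h2 : ∀ v : List ℕ, (v.map (fun i => (Equiv.swap i (i+1) : Equiv.Perm ℕ))).prod *
      (v.reverse.map (fun i => Equiv.swap i (i+1))).prod = 1 := by
    intro v
    induction v with
    | nil => simp
    | cons i v ih =>
      rw [List.reverse_cons, List.map_append, List.prod_append, List.map_cons, List.prod_cons]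
      simp only [List.map_cons, List.map_nil, List.prod_cons, List.prod_nil, mul_one]
      rw [mul_assoc, ← mul_assoc _ _ (Equiv.swap i (i+1)), ih, one_mul, Equiv.swap_mul_self]
  have h3 := cox_word h (w ++ w'.reverse) (by
    intro i hi
    rcases List.mem_append.1 hi with h4 | h4
    · exact hw i h4
    · exact hw' i (List.mem_reverse.1 h4)) (by
    rw [List.map_append, List.prod_append, hp, h2])
  rw [List.map_append, List.prod_append] at h3
  calc (w.map s).prod = (w.map s).prod * ((w'.reverse.map s).prod * (w'.map s).prod) := by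
        rw [h1 w' hw', mul_one]
    _ = _ := by rw [← mul_assoc, h3, one_mul]

section modpi
variable {R B : Type*} [CommRing R] [Ring B] [Algebra R B] {m : ℕ} {A A' d : R} {e : ℕ → B}

/-- the exponent of the unit of a word -/
def kex : List (Bool × ℕ) → ℕ
  | [] => 0
  | (x :: w) => (if x.1 then 3 else 1) + kex w

theorem wd_mod4 (hA : A * A' = 1) (hd : d = - A ^ 2 - A' ^ 2) (h : IsTLr m d e)
    (w w' : List (Bool × ℕ)) (hw : ∀ x ∈ w, x.2 + 1 < m) (hw' : ∀ x ∈ w', x.2 + 1 < m)
    (hp : (w.map (fun x => Equiv.swap x.2 (x.2+1))).prod =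
      (w'.map (fun x => Equiv.swap x.2 (x.2+1))).prod) :
    ∃ (l s : ℕ) (b : B), wd A A' e w = ((-1) ^ s * A ^ l) • wd A A' e w' + (A ^ 4 - 1) • b := by
  set I : Ideal B := Ideal.span {algebraMap R B (A ^ 4 - 1)} with hI
  have htwo : I.IsTwoSided := by
    constructor
    intro a b ha
    rw [hI, Ideal.mem_span_singleton'] at ha ⊢
    obtain ⟨c, rfl⟩ := ha
    refine ⟨c * b, ?_⟩
    rw [mul_assoc, mul_assoc, Algebra.commutes]
  set q : B →+* B ⧸ I := Ideal.Quotient.mk I with hq
  set c : R →+* B ⧸ I := q.comp (algebraMap R B) with hc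
  have hcen : ∀ r x, c r * x = x * c r := by
    intro r x
    obtain ⟨y, rfl⟩ := Ideal.Quotient.mk_surjective x
    show q (algebraMap R B r) * q y = q y * q (algebraMap R B r)
    rw [← map_mul, ← map_mul, Algebra.commutes]
  have hcs : ∀ r (x : B), q (r • x) = c r * q x := by
    intro r x
    rw [Algebra.smul_def, map_mul]; rfl
  have h0 : c (A ^ 4) = 1 := by
    have : c (A ^ 4 - 1) = 0 := by
      show q (algebraMap R B (A ^ 4 - 1)) = 0
      rw [hq, Ideal.Quotient.eq_zero_iff_mem, hI]
      exact Ideal.subset_span rfl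
    rw [map_sub, map_one, sub_eq_zero] at this
    exact this
  have hA' : c A' = c (A ^ 3) := by
    have h1 : c A * c A' = 1 := by rw [← map_mul, hA, map_one]
    calc c A' = c (A ^ 4) * c A' := by rw [h0, one_mul]
      _ = c (A ^ 3) * (c A * c A') := by
        rw [← map_mul, ← map_mul, ← map_mul]; congr 1; ring
      _ = _ := by rw [h1, mul_one]
  set z : B ⧸ I := c (A ^ 2) with hz
  have hz2 : z * z = 1 := by
    rw [hz, ← map_mul, ← h0]
    congr 1; ring
  have hzc : ∀ x, z * x = x * z := hcen _
  have hA'2 : c (A' ^ 2) = z := by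
    rw [map_pow, hA', ← map_pow, hz]
    calc c ((A ^ 3) ^ 2) = c (A ^ 4) * c (A ^ 2) := by rw [← map_mul]; congr 1; ring
      _ = _ := by rw [h0, one_mul]
  have hcd : c d = -(2 * z) := by
    rw [hd, map_sub, map_neg, hA'2, ← hz]
    noncomm_ring
  set s : ℕ → B ⧸ I := fun i => -(z + q (e i)) with hs
  have hsq : ∀ i, i + 1 < m → q (e i) * q (e i) = -(2 * (z * q (e i))) := by
    intro i hi
    rw [← map_mul, h.sq i hi, hcs, hcd]
    noncomm_ring
  have hcox : IsCox m s := by
    refine ⟨?_, ?_, ?_⟩
    · intro i hi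
      exact cox_sq hzc hz2 _ (hsq i hi)
    · intro i hi
      refine cox_br hzc hz2 _ _ (hsq i (by omega)) (hsq (i+1) (by omega)) ?_ ?_
      · rw [← map_mul, ← map_mul, h.up i hi]
      · rw [← map_mul, ← map_mul, h.down i hi]
    · intro i j hj hij
      apply cox_far hzc
      rw [← map_mul, ← map_mul, h.far i j hj hij]
  have hlet : ∀ x : Bool × ℕ, q (ltr A A' e x) = c (-A ^ (if x.1 then 3 else 1)) * s x.2 := by
    intro x
    unfold ltr
    simp only [hs]
    split_ifs
    · rw [map_add, hcs, hcs, map_one, mul_one, map_neg, hA']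
      have h1 : c A = c (A ^ 3) * z := by
        rw [hz, ← map_mul]
        calc c A = c A * c (A ^ 4) := by rw [h0, mul_one]
          _ = _ := by rw [← map_mul]; congr 1; ring
      rw [h1]
      noncomm_ring
    · rw [map_add, hcs, hcs, map_one, mul_one, map_neg, pow_one, hA']
      have h1 : c (A ^ 3) = c A * z := by rw [hz, ← map_mul]; congr 1; ring
      rw [h1]
      noncomm_ring
  have hword : ∀ v : List (Bool × ℕ), q (wd A A' e v) =
      c ((-1) ^ v.length * A ^ kex v) * ((v.map Prod.snd).map s).prod := by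
    intro v
    induction v with
    | nil => simp [wd, kex]
    | cons x v ih =>
      have h1 : wd A A' e (x :: v) = ltr A A' e x * wd A A' e v := by simp [wd]
      rw [h1, map_mul, ih, hlet, List.map_cons, List.map_cons, List.prod_cons, List.length_cons, kex]
      have h2 : c ((-1) ^ (v.length + 1) * A ^ ((if x.1 = true then 3 else 1) + kex v)) =
          c (-A ^ (if x.1 then 3 else 1)) * c ((-1) ^ v.length * A ^ kex v) := by
        rw [← map_mul]; congr 1; rw [pow_add]; ring
      rw [h2]
      rw [mul_assoc, ← mul_assoc (s x.2), ← hcen, mul_assoc, mul_assoc]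
  have hfin : ((w.map Prod.snd).map s).prod = ((w'.map Prod.snd).map s).prod := by
    apply cox_eq hcox
    · intro i hi
      obtain ⟨x, hx, rfl⟩ := List.mem_map.1 hi
      exact hw x hx
    · intro i hi
      obtain ⟨x, hx, rfl⟩ := List.mem_map.1 hi
      exact hw' x hx
    · rw [List.map_map, List.map_map]
      exact hp
  refine ⟨kex w + 3 * kex w', w.length + 3 * w'.length, ?_⟩
  have h1 : q (wd A A' e w) = c ((-1) ^ (w.length + 3 * w'.length) * A ^ (kex w + 3 * kex w')) *
      q (wd A A' e w') := by
    rw [hword w, hword w', hfin, ← mul_assoc, ← map_mul]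
    congr 1
    have h2 : (-1 : R) ^ (w.length + 3 * w'.length) * A ^ (kex w + 3 * kex w') *
        ((-1) ^ w'.length * A ^ kex w') = ((-1) ^ w.length * A ^ kex w) *
          (((-1) ^ (2 * (2 * w'.length))) * (A ^ 4) ^ kex w') := by ring
    have h3 : ∀ a b k : R, c b = 1 → c k = 1 → c (a * (b * k)) = c a := by
      intro a b k h4 h5
      rw [map_mul, map_mul, h4, h5, one_mul, mul_one]
    rw [h2, h3]
    · rw [pow_mul]; simp
    · rw [map_pow, h0, one_pow]
  have h3 : wd A A' e w - ((-1) ^ (w.length + 3 * w'.length) * A ^ (kex w + 3 * kex w')) • wd A A' e w' ∈ I := by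
    rw [← Ideal.Quotient.eq_zero_iff_mem]
    show q _ = 0
    rw [map_sub, hcs, h1, sub_self]
  rw [hI, Ideal.mem_span_singleton'] at h3
  obtain ⟨b, hb⟩ := h3
  refine ⟨b, ?_⟩
  rw [Algebra.smul_def (A ^ 4 - 1) b, Algebra.commutes, hb]
  abel

end modpi

end Pool.Agent.T6.H96.KT
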