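import Mathlib

/-!
# A weighted norm on the combinations of finitely many elements modulo `π ^ n`
-/

set_option autoImplicit false

namespace Pool.Agent.T6.H96.KT

open Finset

section
variable {R S J : Type*} [CommRing R] [AddCommGroup S] [Module R S] [Fintype J]

/-- the combination of the `π ^ k • g j`, `k < n`, with integer coefficients -/
def mt (π : R) (g : J → S) (n : ℕ) (c : J → ℕ → ℤ) : S :=
  ∑ j, ∑ k ∈ range n, (((c j k : ℤ) : R) * π ^ k) • g j

/-- the weight of the coefficients -/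
def wt (n : ℕ) (y : ℝ) (c : J → ℕ → ℤ) : ℝ := ∑ j, ∑ k ∈ range n, |(c j k : ℝ)| * y ^ k

def Nb (π : R) (g : J → S) (n : ℕ) (y t : ℝ) (x : S) : Prop :=
  ∃ (c : J → ℕ → ℤ) (b : S), x = mt π g n c + π ^ n • b ∧ wt n y c ≤ t

variable {π : R} {g : J → S} {n : ℕ} {y t t' : ℝ} {x x' : S}

theorem Nb.mono (h : Nb π g n y t x) (ht : t ≤ t') : Nb π g n y t' x := by
  obtain ⟨c, b, h1, h2⟩ := h
  exact ⟨c, b, h1, h2.trans ht⟩

theorem Nb.zero : Nb π g n y 0 (0 : S) := ⟨fun _ _ => 0, 0, by simp [mt], by simp [wt]⟩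

theorem Nb.add (hy : 0 ≤ y) (h : Nb π g n y t x) (h' : Nb π g n y t' x') :
    Nb π g n y (t + t') (x + x') := by
  obtain ⟨c, b, h1, h2⟩ := h
  obtain ⟨c', b', h1', h2'⟩ := h'
  refine ⟨fun j k => c j k + c' j k, b + b', ?_, ?_⟩
  · rw [h1, h1']
    have : mt π g n (fun j k => c j k + c' j k) = mt π g n c + mt π g n c' := by
      unfold mt
      rw [← Finset.sum_add_distrib]
      refine Finset.sum_congr rfl fun j _ => ?_
      rw [← Finset.sum_add_distrib]
      refine Finset.sum_congr rfl fun k _ => ?_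
      rw [← add_smul]; push_cast; rw [add_mul]
    rw [this, smul_add]; abel
  · refine le_trans ?_ (add_le_add h2 h2')
    unfold wt
    rw [← Finset.sum_add_distrib]
    refine Finset.sum_le_sum fun j _ => ?_
    rw [← Finset.sum_add_distrib]
    refine Finset.sum_le_sum fun k _ => ?_
    rw [← add_mul]
    refine mul_le_mul_of_nonneg_right ?_ (by positivity)
    push_cast
    exact abs_add_le _ _

theorem Nb.zsmul (z : ℤ) (h : Nb π g n y t x) : Nb π g n y (|(z : ℝ)| * t) (z • x) := by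
  obtain ⟨c, b, h1, h2⟩ := h
  refine ⟨fun j k => z * c j k, z • b, ?_, ?_⟩
  · rw [h1]
    have : mt π g n (fun j k => z * c j k) = z • mt π g n c := by
      unfold mt
      rw [Finset.smul_sum]
      refine Finset.sum_congr rfl fun j _ => ?_
      rw [Finset.smul_sum]
      refine Finset.sum_congr rfl fun k _ => ?_
      rw [← Int.cast_smul_eq_zsmul R z, smul_smul]; push_cast; rw [mul_assoc]
    rw [this, smul_add, smul_comm z (π ^ n) b]
  · refine le_trans (le_of_eq ?_) (mul_le_mul_of_nonneg_left h2 (abs_nonneg _))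
    unfold wt
    rw [Finset.mul_sum]
    refine Finset.sum_congr rfl fun j _ => ?_
    rw [Finset.mul_sum]
    refine Finset.sum_congr rfl fun k _ => ?_
    push_cast
    rw [abs_mul]; ring

theorem Nb.rem (b' : S) (h : Nb π g n y t x) : Nb π g n y t (x + π ^ n • b') := by
  obtain ⟨c, b, h1, h2⟩ := h
  exact ⟨c, b + b', by rw [h1, smul_add]; abel, h2⟩

theorem Nb.pi (hy : 0 ≤ y) (h : Nb π g n y t x) : Nb π g n y (y * t) (π • x) := by
  obtain ⟨c, b, h1, h2⟩ := h
  rcases n with _ | n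
  · refine ⟨fun _ _ => 0, π • b, ?_, ?_⟩
    · rw [h1]; simp [mt]
    · unfold wt at h2 ⊢
      simp only [Finset.range_zero, Finset.sum_empty, Finset.sum_const_zero] at h2 ⊢
      positivity
  · refine ⟨fun j k => if k = 0 then 0 else c j (k - 1), π • b + ∑ j, ((c j n : ℤ) : R) • g j, ?_, ?_⟩
    · have e1 : mt π g (n+1) (fun j k => if k = 0 then 0 else c j (k - 1)) =
          ∑ j, ∑ k ∈ range n, (((c j k : ℤ) : R) * π ^ (k+1)) • g j := by
        unfold mt
        refine Finset.sum_congr rfl fun j _ => ?_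
        rw [Finset.sum_range_succ']
        simp
      have e2 : π • mt π g (n+1) c = ∑ j, ∑ k ∈ range n, (((c j k : ℤ) : R) * π ^ (k+1)) • g j +
          ∑ j, (((c j n : ℤ) : R) * π ^ (n+1)) • g j := by
        unfold mt
        rw [Finset.smul_sum, ← Finset.sum_add_distrib]
        refine Finset.sum_congr rfl fun j _ => ?_
        rw [Finset.sum_range_succ, smul_add, Finset.smul_sum, smul_smul]
        congr 1
        · refine Finset.sum_congr rfl fun k _ => ?_
          rw [smul_smul]; congr 1; ring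
        · congr 1; ring
      have e3 : ∑ j, (((c j n : ℤ) : R) * π ^ (n+1)) • g j = π ^ (n+1) • ∑ j, ((c j n : ℤ) : R) • g j := by
        rw [Finset.smul_sum]
        refine Finset.sum_congr rfl fun j _ => ?_
        rw [smul_smul, mul_comm]
      rw [h1, smul_add, e1, e2, e3, smul_add, smul_comm π (π ^ (n+1)) b]
      abel
    · have hw : wt (n+1) y (fun j k => if k = 0 then 0 else c j (k - 1)) =
          ∑ j, ∑ k ∈ range n, |(c j k : ℝ)| * y ^ (k+1) := by
        unfold wt
        refine Finset.sum_congr rfl fun j _ => ?_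
        rw [Finset.sum_range_succ']
        simp
      rw [hw]
      refine le_trans ?_ (mul_le_mul_of_nonneg_left h2 hy)
      unfold wt
      rw [Finset.mul_sum]
      refine Finset.sum_le_sum fun j _ => ?_
      rw [Finset.sum_range_succ, mul_add, Finset.mul_sum]
      have h3 : 0 ≤ y * (|(c j n : ℝ)| * y ^ n) := by positivity
      have h4 : ∑ k ∈ range n, |(c j k : ℝ)| * y ^ (k+1) = ∑ k ∈ range n, y * (|(c j k : ℝ)| * y ^ k) :=
        Finset.sum_congr rfl fun k _ => by ring
      linarith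

theorem Nb.pi_pow (hy : 0 ≤ y) (h : Nb π g n y t x) (k : ℕ) : Nb π g n y (y ^ k * t) (π ^ k • x) := by
  induction k with
  | zero => simpa using h
  | succ k ih =>
    have := ih.pi hy
    rw [smul_smul, ← pow_succ'] at this
    refine this.mono (le_of_eq ?_)
    ring

theorem Nb.base [DecidableEq J] (j : J) : Nb π g n y 1 (g j) := by
  rcases n with _ | n
  · exact ⟨fun _ _ => 0, g j, by simp [mt], by simp [wt]⟩
  · refine ⟨fun j' k => if j' = j ∧ k = 0 then 1 else 0, 0, ?_, ?_⟩
    · unfold mt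
      rw [smul_zero, add_zero, Finset.sum_eq_single j, Finset.sum_eq_single 0]
      · simp
      · intro k _ hk; simp [hk]
      · intro h; simp at h
      · intro j' _ hj; simp [hj]
      · intro h; exact absurd (Finset.mem_univ _) h
    · unfold wt
      rw [Finset.sum_eq_single j, Finset.sum_eq_single 0]
      · simp
      · intro k _ hk; simp [hk]
      · intro h; simp at h
      · intro j' _ hj; simp [hj]
      · intro h; exact absurd (Finset.mem_univ _) h

theorem Nb.sum {ι : Type*} (hy : 0 ≤ y) (s : Finset ι) (tt : ι → ℝ) (xx : ι → S)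
    (h : ∀ i ∈ s, Nb π g n y (tt i) (xx i)) : Nb π g n y (∑ i ∈ s, tt i) (∑ i ∈ s, xx i) := by
  classical
  induction s using Finset.induction_on with
  | empty => simpa using Nb.zero
  | insert i s hi ih =>
    rw [Finset.sum_insert hi, Finset.sum_insert hi]
    exact (h i (Finset.mem_insert_self _ _)).add hy (ih fun j hj => h j (Finset.mem_insert_of_mem hj))

/-- one step -/
theorem Nb.step [DecidableEq J] {K : ℝ} (hy : 0 ≤ y) (hK : 0 ≤ K) (X : S →ₗ[R] S) (σ : J → J)
    (ε : J → ℤ) (hε : ∀ j, |(ε j : ℝ)| ≤ 1) (E : J → S) (hX : ∀ j, X (g j) = ε j • g (σ j) + π • E j)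
    (hE : ∀ j, Nb π g n y K (E j)) (h : Nb π g n y t x) : Nb π g n y (t * (1 + K * y)) (X x) := by
  obtain ⟨c, b, h1, h2⟩ := h
  have h3 : ∀ j k, Nb π g n y (|(c j k : ℝ)| * (y ^ k * (1 + K * y)))
      ((((c j k : ℤ) : R) * π ^ k) • X (g j)) := by
    intro j k
    have e1 : Nb π g n y (1 + K * y) (X (g j)) := by
      rw [hX]
      have e2 : Nb π g n y (|(ε j : ℝ)| * 1) (ε j • g (σ j)) := (Nb.base (σ j)).zsmul (ε j)
      refine (e2.add hy ((hE j).pi hy)).mono ?_
      have := hε j
      linarith [mul_comm y K]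
    have e3 := (e1.pi_pow hy k).zsmul (c j k)
    rw [mul_smul, Int.cast_smul_eq_zsmul]
    exact e3
  have h4 : X x = (∑ j, ∑ k ∈ range n, (((c j k : ℤ) : R) * π ^ k) • X (g j)) + π ^ n • X b := by
    rw [h1, map_add, map_smul]
    congr 1
    unfold mt
    rw [map_sum]
    refine Finset.sum_congr rfl fun j _ => ?_
    rw [map_sum]
    refine Finset.sum_congr rfl fun k _ => ?_
    rw [map_smul]
  rw [h4]
  apply Nb.rem
  refine (Nb.sum hy Finset.univ _ _ fun j _ => Nb.sum hy (range n) _ _ fun k _ => h3 j k).mono ?_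
  have h5 : ∑ j, ∑ k ∈ range n, |(c j k : ℝ)| * (y ^ k * (1 + K * y)) = wt n y c * (1 + K * y) := by
    unfold wt
    rw [Finset.sum_mul]
    refine Finset.sum_congr rfl fun j _ => ?_
    rw [Finset.sum_mul]
    refine Finset.sum_congr rfl fun k _ => ?_
    ring
  rw [h5]
  exact mul_le_mul_of_nonneg_right h2 (by positivity)

/-- the inverse of `1 + π` -/
theorem Nb.inv (hy : 0 ≤ y) (hy1 : y ≤ 1 / 2) (ht : 0 ≤ t) {u : R} (hu : u * (1 + π) = 1)
    (h : Nb π g n y t x) : Nb π g n y (2 * t) (u • x) := by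
  have h1 : u = ∑ j ∈ range n, (-π) ^ j + (-π) ^ n * u := by
    have h2 := mul_neg_geom_sum (-π) n
    have h3 : u * ((1 - -π) * ∑ i ∈ range n, (-π) ^ i) = u * (1 - (-π) ^ n) := by rw [h2]
    have h4 : u * (1 - -π) = 1 := by rw [sub_neg_eq_add]; exact hu
    rw [← mul_assoc, h4, one_mul] at h3
    rw [h3]; ring
  have h2 : u • x = ∑ j ∈ range n, ((-1 : ℤ) ^ j) • (π ^ j • x) + π ^ n • (((-1 : ℤ) ^ n) • (u • x)) := by
    have e1 : ∀ j : ℕ, ((-1 : ℤ) ^ j) • (π ^ j • x) = (-π) ^ j • x := by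
      intro j
      rw [← Int.cast_smul_eq_zsmul R, smul_smul, neg_pow π j]
      congr 2
      push_cast; rfl
    simp only [e1]
    rw [← Int.cast_smul_eq_zsmul R, smul_smul, smul_smul, ← Finset.sum_smul, ← add_smul]
    congr 1
    conv_lhs => rw [h1]
    congr 1
    rw [neg_pow π n]
    push_cast
    ring
  rw [h2]
  apply Nb.rem
  have h3 : ∀ j ∈ range n, Nb π g n y (y ^ j * t) (((-1 : ℤ) ^ j) • (π ^ j • x)) := by
    intro j _
    have := (h.pi_pow hy j).zsmul ((-1) ^ j)
    refine this.mono (le_of_eq ?_)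
    push_cast
    rw [abs_pow, abs_neg, abs_one, one_pow, one_mul]
  refine (Nb.sum hy (range n) _ _ h3).mono ?_
  rw [← Finset.sum_mul]
  refine mul_le_mul_of_nonneg_right ?_ ht
  exact (Finset.sum_le_sum fun j _ => pow_le_pow_left₀ hy hy1 j).trans (sum_geometric_two_le n)

/-- elements with a bound which does not depend on `n` and `y` -/
def PP (π : R) (g : J → S) (x : S) : Prop :=
  ∃ K : ℝ, 0 ≤ K ∧ ∀ (n : ℕ) (y : ℝ), 0 ≤ y → y ≤ 1 / 2 → Nb π g n y K x

theorem PP.zero : PP π g (0 : S) := ⟨0, le_rfl, fun _ _ _ _ => Nb.zero⟩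

theorem PP.base [DecidableEq J] (j : J) : PP π g (g j) := ⟨1, zero_le_one, fun _ _ _ _ => Nb.base j⟩

theorem PP.add (h : PP π g x) (h' : PP π g x') : PP π g (x + x') := by
  obtain ⟨K, hK, h⟩ := h
  obtain ⟨K', hK', h'⟩ := h'
  exact ⟨K + K', add_nonneg hK hK', fun n y hy hy1 => (h n y hy hy1).add hy (h' n y hy hy1)⟩

theorem PP.zsmul (z : ℤ) (h : PP π g x) : PP π g (z • x) := by
  obtain ⟨K, hK, h⟩ := h
  exact ⟨|(z : ℝ)| * K, by positivity, fun n y hy hy1 => (h n y hy hy1).zsmul z⟩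

theorem PP.pi (h : PP π g x) : PP π g (π • x) := by
  obtain ⟨K, hK, h⟩ := h
  refine ⟨K, hK, fun n y hy hy1 => ((h n y hy hy1).pi hy).mono ?_⟩
  nlinarith

theorem PP.inv {u : R} (hu : u * (1 + π) = 1) (h : PP π g x) : PP π g (u • x) := by
  obtain ⟨K, hK, h⟩ := h
  exact ⟨2 * K, by positivity, fun n y hy hy1 => (h n y hy hy1).inv hy hy1 hK hu⟩

theorem PP.sum {ι : Type*} (s : Finset ι) (xx : ι → S) (h : ∀ i ∈ s, PP π g (xx i)) :
    PP π g (∑ i ∈ s, xx i) := by
  classical
  induction s using Finset.induction_on with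
  | empty => simpa using PP.zero
  | insert i s hi ih =>
    rw [Finset.sum_insert hi]
    exact (h i (Finset.mem_insert_self _ _)).add (ih fun j hj => h j (Finset.mem_insert_of_mem hj))

/-- the coefficients of an element are bounded -/
theorem coeff_bound (hy : 0 < y) {c : J → ℕ → ℤ} (h : wt n y c ≤ t) (j : J) (k : ℕ) (hk : k < n) :
    |(c j k : ℝ)| ≤ t / y ^ k := by
  rw [le_div_iff₀ (by positivity)]
  refine le_trans ?_ h
  unfold wt
  have h1 : |(c j k : ℝ)| * y ^ k ≤ ∑ k ∈ range n, |(c j k : ℝ)| * y ^ k :=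
    Finset.single_le_sum (f := fun k => |(c j k : ℝ)| * y ^ k) (fun k _ => by positivity)
      (Finset.mem_range.2 hk)
  exact h1.trans (Finset.single_le_sum (f := fun j => ∑ k ∈ range n, |(c j k : ℝ)| * y ^ k)
    (fun j _ => Finset.sum_nonneg fun k _ => by positivity) (Finset.mem_univ j))

end

end Pool.Agent.T6.H96.KT
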