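import Pool.Agent.Y463.SK.Gen
import Pool.Agent.T6.H96.KT.Mod
import Pool.Agent.T6.H96.KT.Nb

/-!
# The elements of the words of length `N` modulo `(A^4 - 1)^n` have polynomially bounded coefficients
-/

set_option autoImplicit false

namespace Pool.Agent.T6.H96.KT

open Finset LaurentPolynomial Pool.Agent.H891R2.Jones Pool.Agent.W639.RB Pool.Agent.Y463.SK

/-- the algebra generated by the Temperley-Lieb generators -/
noncomputable abbrev SA (m : ℕ) := Algebra.adjoin ℤ[T;T⁻¹] (Set.range (EB m))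

noncomputable def ea (m i : ℕ) : SA m := ⟨EB m i, Algebra.subset_adjoin ⟨i, rfl⟩⟩

theorem isTLr_ea (m : ℕ) : IsTLr m (-(T 1)^2 - (T (-1))^2 : ℤ[T;T⁻¹]) (ea m) where
  sq i hi := Subtype.ext ((isTLr_EB m).sq i hi)
  up i hi := Subtype.ext ((isTLr_EB m).up i hi)
  down i hi := Subtype.ext ((isTLr_EB m).down i hi)
  far i j hj hij := Subtype.ext ((isTLr_EB m).far i j hj hij)

/-- the element of a word -/
noncomputable def wa (m : ℕ) (w : List (Bool × ℕ)) : SA m := wd (T 1 : ℤ[T;T⁻¹]) (T (-1)) (ea m) w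

theorem wa_coe (m : ℕ) (w : List (Bool × ℕ)) : ((wa m w : SA m) : BB m) = bb m w := by
  induction w with
  | nil => rfl
  | cons x w ih =>
    have h1 : wa m (x :: w) = ltr (T 1 : ℤ[T;T⁻¹]) (T (-1)) (ea m) x * wa m w := by simp [wa, wd]
    have h2 : bb m (x :: w) = ltr (T 1 : ℤ[T;T⁻¹]) (T (-1)) (EB m) x * bb m w := by simp [bb, wd]
    rw [h1, h2, Subalgebra.coe_mul, ih]
    congr 1
    unfold ltr
    split_ifs <;> rfl

theorem wa_append (m : ℕ) (w w' : List (Bool × ℕ)) : wa m (w ++ w') = wa m w * wa m w' :=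
  wd_append _ _ _ _ _

theorem wa_nil (m : ℕ) : wa m [] = 1 := rfl

theorem wa_cons (m : ℕ) (x : Bool × ℕ) (w : List (Bool × ℕ)) :
    wa m (x :: w) = ltr (T 1 : ℤ[T;T⁻¹]) (T (-1)) (ea m) x * wa m w := by simp [wa, wd]

theorem wa_inv {m : ℕ} (w : List (Bool × ℕ)) (hw : ∀ x ∈ w, x.2 + 1 < m) :
    wa m w * wa m (invL w) = 1 := by
  apply Subtype.ext
  rw [Subalgebra.coe_mul, wa_coe, wa_coe, bb_inv w hw]
  rfl

variable {m : ℕ}

/-- the words span the algebra -/
theorem span_words (x : SA m) :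
    x ∈ Submodule.span ℤ[T;T⁻¹] (Set.range (fun w : List (Letter m) => wa m (toN w))) := by
  set W := Submodule.span ℤ[T;T⁻¹] (Set.range (fun w : List (Letter m) => wa m (toN w))) with hW
  have h1 : ∀ (p : Letter m) (y : SA m), y ∈ W →
      ltr (T 1 : ℤ[T;T⁻¹]) (T (-1)) (ea m) (p.1, (p.2 : ℕ)) * y ∈ W := by
    intro p y hy
    induction hy using Submodule.span_induction with
    | mem y hy =>
      obtain ⟨w, rfl⟩ := hy
      exact Submodule.subset_span ⟨p :: w, (wa_cons m _ _)⟩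
    | zero => rw [mul_zero]; exact Submodule.zero_mem _
    | add a b _ _ ha hb => rw [mul_add]; exact Submodule.add_mem _ ha hb
    | smul r a _ ha => rw [mul_smul_comm]; exact Submodule.smul_mem _ _ ha
  have h2 : ∀ (i : ℕ) (y : SA m), y ∈ W → ea m i * y ∈ W := by
    intro i y hy
    rcases Nat.lt_or_ge (i + 1) m with hi | hi
    · have h3 := h1 (true, ⟨i, by omega⟩) y hy
      have h4 : ea m i * y = (T 1 : ℤ[T;T⁻¹]) •
          (ltr (T 1 : ℤ[T;T⁻¹]) (T (-1)) (ea m) (true, i) * y) - (T 2 : ℤ[T;T⁻¹]) • y := by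
        unfold ltr
        rw [if_pos rfl, add_mul, smul_mul_assoc, one_mul, smul_mul_assoc, smul_add, smul_smul, smul_smul,
          ← T_add, ← T_add]
        have e1 : (1 : ℤ) + 1 = 2 := by norm_num
        have e2 : (1 : ℤ) + -1 = 0 := by norm_num
        rw [e1, e2, T_zero, one_smul]
        abel
      rw [h4]
      exact Submodule.sub_mem _ (Submodule.smul_mem _ _ h3) (Submodule.smul_mem _ _ hy)
    · have : ea m i = 0 := Subtype.ext (EB_zero m i hi)
      rw [this, zero_mul]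
      exact Submodule.zero_mem _
  have h3 : ∀ (b : BB m) (hb : b ∈ Algebra.adjoin ℤ[T;T⁻¹] (Set.range (EB m))) (y : SA m), y ∈ W →
      (⟨b, hb⟩ : SA m) * y ∈ W := by
    intro b hb
    induction hb using Algebra.adjoin_induction with
    | mem b hb =>
      obtain ⟨i, rfl⟩ := hb
      exact h2 i
    | algebraMap r =>
      intro y hy
      have : (⟨algebraMap _ _ r, Subalgebra.algebraMap_mem _ r⟩ : SA m) * y = r • y := by
        rw [Algebra.smul_def]; rfl
      rw [this]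
      exact Submodule.smul_mem _ _ hy
    | add b c hb' hc' hb hc =>
      intro y hy
      have : (⟨b + c, Subalgebra.add_mem _ hb' hc'⟩ : SA m) * y = ⟨b, hb'⟩ * y + ⟨c, hc'⟩ * y := by
        rw [← add_mul]; rfl
      rw [this]
      exact Submodule.add_mem _ (hb y hy) (hc y hy)
    | mul b c hb' hc' hb hc =>
      intro y hy
      have : (⟨b * c, Subalgebra.mul_mem _ hb' hc'⟩ : SA m) * y = ⟨b, hb'⟩ * (⟨c, hc'⟩ * y) := by
        rw [← mul_assoc]; rfl
      rw [this]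
      exact hb _ (hc y hy)
  have h4 := h3 x.1 x.2 1 (Submodule.subset_span ⟨[], rfl⟩)
  rwa [mul_one] at h4

open Classical in
/-- finitely many words span -/
theorem exists_finite (hm : 0 < m) : ∃ F : Finset (List (Letter m)), ∀ x : SA m,
    x ∈ Submodule.span ℤ[T;T⁻¹] ((fun w : List (Letter m) => wa m (toN w)) '' (F : Set (List (Letter m)))) := by
  obtain ⟨G, hG⟩ := (finrank_le (isTLr_EB m) hm (EB_zero m)).1
  have h1 : ∀ x : SA m, ∃ F : Finset (List (Letter m)),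
      x ∈ Submodule.span ℤ[T;T⁻¹] ((fun w : List (Letter m) => wa m (toN w)) '' (F : Set (List (Letter m)))) := by
    intro x
    obtain ⟨c, hc⟩ := Finsupp.mem_span_range_iff_exists_finsupp.1 (span_words x)
    refine ⟨c.support, ?_⟩
    rw [← hc]
    exact Submodule.sum_mem _ fun w hw => Submodule.smul_mem _ _ (Submodule.subset_span ⟨w, hw, rfl⟩)
  choose F hF using h1
  refine ⟨G.biUnion F, fun x => ?_⟩
  have h2 : x ∈ Submodule.span ℤ[T;T⁻¹] (G : Set (SA m)) := by rw [hG]; exact Submodule.mem_top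
  refine (Submodule.span_le.2 ?_) h2
  intro g hg
  refine Submodule.span_mono ?_ (hF g)
  apply Set.image_mono
  intro w hw
  exact Finset.mem_biUnion.2 ⟨g, hg, hw⟩

/-- a word with a given permutation, if there is one -/
noncomputable def rep (p : Equiv.Perm (Fin m)) : List (Letter m) :=
  open Classical in if h : ∃ w : List (Letter m), permW w = p then h.choose else []

theorem rep_perm (w : List (Letter m)) : permW (rep (permW w)) = permW w := by
  have h : ∃ w' : List (Letter m), permW w' = permW w := ⟨w, rfl⟩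
  unfold rep
  rw [dif_pos h]
  exact h.choose_spec

theorem permL_eq {w w' : List (Letter m)} (h : permW w = permW w') : permL (toN w) = permL (toN w') := by
  ext i
  rcases Nat.lt_or_ge i m with hi | hi
  · have h1 := (permL_toN w).1 ⟨i, hi⟩
    have h2 := (permL_toN w').1 ⟨i, hi⟩
    rw [h] at h1
    exact h1.trans h2.symm
  · rw [(permL_toN w).2 i hi, (permL_toN w').2 i hi]

/-- the family -/
noncomputable def gF (F : Finset (List (Letter m))) (p : Fin 4 × F) : SA m :=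
  (T ((p.1 : ℕ) : ℤ) : ℤ[T;T⁻¹]) • wa m (toN (p.2 : List (Letter m)))

theorem PP_T (F : Finset (List (Letter m))) (v : F) (k : ℤ) :
    PP (T 4 - 1 : ℤ[T;T⁻¹]) (gF F) ((T k : ℤ[T;T⁻¹]) • wa m (toN (v : List (Letter m)))) := by
  classical
  have hu : (T (-4) : ℤ[T;T⁻¹]) * (1 + (T 4 - 1)) = 1 := by
    have : (1 + (T 4 - 1) : ℤ[T;T⁻¹]) = T 4 := by ring
    rw [this, ← T_add]
    exact T_zero
  have key : ∀ (q : ℤ) (i : Fin 4), PP (T 4 - 1 : ℤ[T;T⁻¹]) (gF F)
      ((T (((i : ℕ) : ℤ) + 4 * q) : ℤ[T;T⁻¹]) • wa m (toN (v : List (Letter m)))) := by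
    intro q i
    induction q using Int.induction_on with
    | zero =>
      rw [mul_zero, add_zero]
      exact PP.base (g := gF F) (i, v)
    | succ q ih =>
      have h1 : (T (((i : ℕ) : ℤ) + 4 * ((q : ℤ) + 1)) : ℤ[T;T⁻¹]) • wa m (toN (v : List (Letter m))) =
          (T (((i : ℕ) : ℤ) + 4 * (q : ℤ)) : ℤ[T;T⁻¹]) • wa m (toN (v : List (Letter m))) +
          (T 4 - 1 : ℤ[T;T⁻¹]) • ((T (((i : ℕ) : ℤ) + 4 * (q : ℤ)) : ℤ[T;T⁻¹]) •
            wa m (toN (v : List (Letter m)))) := by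
        have e1 : ((i : ℕ) : ℤ) + 4 * ((q : ℤ) + 1) = 4 + (((i : ℕ) : ℤ) + 4 * (q : ℤ)) := by ring
        rw [e1, T_add, smul_smul, ← add_smul]
        congr 1
        ring
      rw [h1]
      exact ih.add ih.pi
    | pred q ih =>
      have h1 : (T (((i : ℕ) : ℤ) + 4 * (-(q : ℤ) - 1)) : ℤ[T;T⁻¹]) • wa m (toN (v : List (Letter m))) =
          (T (-4) : ℤ[T;T⁻¹]) • ((T (((i : ℕ) : ℤ) + 4 * (-(q : ℤ))) : ℤ[T;T⁻¹]) •
            wa m (toN (v : List (Letter m)))) := by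
        have e1 : ((i : ℕ) : ℤ) + 4 * (-(q : ℤ) - 1) = -4 + (((i : ℕ) : ℤ) + 4 * (-(q : ℤ))) := by ring
        rw [e1, T_add, smul_smul]
      rw [h1]
      exact PP.inv hu ih
  have h1 := key (k / 4) ⟨(k % 4).toNat, by omega⟩
  have h2 : (((⟨(k % 4).toNat, by omega⟩ : Fin 4) : ℕ) : ℤ) + 4 * (k / 4) = k := by
    simp only
    omega
  rwa [h2] at h1

theorem PP_smul (F : Finset (List (Letter m))) (v : F) (r : ℤ[T;T⁻¹]) :
    PP (T 4 - 1 : ℤ[T;T⁻¹]) (gF F) (r • wa m (toN (v : List (Letter m)))) := by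
  induction r using LaurentPolynomial.induction_on' with
  | add p q hp hq => rw [add_smul]; exact hp.add hq
  | C_mul_T n a =>
    have h1 : (C a * T n : ℤ[T;T⁻¹]) • wa m (toN (v : List (Letter m))) =
        a • ((T n : ℤ[T;T⁻¹]) • wa m (toN (v : List (Letter m)))) := by
      rw [mul_smul, ← Int.cast_smul_eq_zsmul ℤ[T;T⁻¹] a]
      congr 1
    rw [h1]
    exact (PP_T F v n).zsmul a

theorem PP_all (F : Finset (List (Letter m))) (hF : ∀ x : SA m,
    x ∈ Submodule.span ℤ[T;T⁻¹] ((fun w : List (Letter m) => wa m (toN w)) '' (F : Set (List (Letter m)))))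
    (x : SA m) : PP (T 4 - 1 : ℤ[T;T⁻¹]) (gF F) x := by
  have key : ∀ r : ℤ[T;T⁻¹], PP (T 4 - 1 : ℤ[T;T⁻¹]) (gF F) (r • x) := by
    have hx := hF x
    induction hx using Submodule.span_induction with
    | mem y hy =>
      obtain ⟨w, hw, rfl⟩ := hy
      intro r
      exact PP_smul F ⟨w, hw⟩ r
    | zero => intro r; rw [smul_zero]; exact PP.zero
    | add a b _ _ ha hb => intro r; rw [smul_add]; exact (ha r).add (hb r)
    | smul s a _ ha => intro r; rw [smul_smul]; exact ha _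
  have := key 1
  rwa [one_smul] at this

open Classical in
/-- **Growth.** -/
theorem growth (hm : 0 < m) : ∃ (F : Finset (List (Letter m))) (K : ℝ), 0 ≤ K ∧
    ∀ (w : List (Letter m)) (n : ℕ) (y : ℝ), 0 ≤ y → y ≤ 1 / 2 →
      Nb (T 4 - 1 : ℤ[T;T⁻¹]) (gF F) n y ((1 + K * y) ^ w.length) (wa m (toN w)) := by
  obtain ⟨F0, hF0⟩ := exists_finite hm
  set F : Finset (List (Letter m)) := F0 ∪ (univ.image rep ∪ {[]}) with hFdef
  have hF : ∀ x : SA m, x ∈ Submodule.span ℤ[T;T⁻¹]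
      ((fun w : List (Letter m) => wa m (toN w)) '' (F : Set (List (Letter m)))) := by
    intro x
    refine Submodule.span_mono ?_ (hF0 x)
    apply Set.image_mono
    intro w hw
    exact Finset.mem_union_left _ hw
  have hrep : ∀ p, rep p ∈ F := fun p => Finset.mem_union_right _ (Finset.mem_union_left _
    (Finset.mem_image_of_mem _ (Finset.mem_univ _)))
  have hnil : [] ∈ F := Finset.mem_union_right _ (Finset.mem_union_right _ (Finset.mem_singleton_self _))
  -- one letter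
  have hstep : ∀ (x : Letter m) (j : Fin 4 × F), ∃ (j' : Fin 4 × F) (ε : ℤ) (E : SA m),
      |(ε : ℝ)| ≤ 1 ∧ ltr (T 1 : ℤ[T;T⁻¹]) (T (-1)) (ea m) (x.1, (x.2 : ℕ)) * gF F j =
        ε • gF F j' + (T 4 - 1 : ℤ[T;T⁻¹]) • E := by
    rintro x ⟨i, v⟩
    set v' := rep (permW (x :: (v : List (Letter m)))) with hv'
    have hp : permL (toN (x :: (v : List (Letter m)))) = permL (toN v') :=
      permL_eq (rep_perm (x :: (v : List (Letter m)))).symm
    have hd : (-(T 1)^2 - (T (-1))^2 : ℤ[T;T⁻¹]) = - (T 1) ^ 2 - (T (-1)) ^ 2 := rfl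
    obtain ⟨l, s, b, hb⟩ := wd_mod4 T_mul_inv hd (isTLr_ea m) (toN (x :: (v : List (Letter m)))) (toN v')
      (toN_lt _) (toN_lt _) hp
    have h1 : ltr (T 1 : ℤ[T;T⁻¹]) (T (-1)) (ea m) (x.1, (x.2 : ℕ)) * gF F (i, v) =
        (T ((i : ℕ) : ℤ) : ℤ[T;T⁻¹]) • wa m (toN (x :: (v : List (Letter m)))) := by
      unfold gF
      rw [mul_smul_comm]
      congr 1
    have h2 : wa m (toN (x :: (v : List (Letter m)))) =
        ((-1) ^ s * (T 1 : ℤ[T;T⁻¹]) ^ l) • wa m (toN v') + ((T 1 : ℤ[T;T⁻¹]) ^ 4 - 1) • b := hb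
    have e4 : (T 1 : ℤ[T;T⁻¹]) ^ 4 = T 4 := by rw [T_pow]; norm_num
    have el : (T 1 : ℤ[T;T⁻¹]) ^ l = T (l : ℤ) := by rw [T_pow]; norm_num
    rw [e4, el] at h2
    -- reduce the exponent modulo four
    obtain ⟨r, hr, h, hh⟩ : ∃ r : ℕ, r < 4 ∧ ∃ h : ℤ[T;T⁻¹], (T (((i : ℕ) : ℤ) + l) : ℤ[T;T⁻¹]) =
        T (r : ℤ) + (T 4 - 1) * h := by
      obtain ⟨h, hh⟩ := sub_dvd_pow_sub_pow (T 4 : ℤ[T;T⁻¹]) 1 (((i : ℕ) + l) / 4)
      obtain ⟨q, hq⟩ : ∃ q, q = ((i : ℕ) + l) / 4 := ⟨_, rfl⟩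
      obtain ⟨r, hr⟩ : ∃ r, r = ((i : ℕ) + l) % 4 := ⟨_, rfl⟩
      refine ⟨r, by rw [hr]; exact Nat.mod_lt _ (by norm_num), h * T (r : ℤ), ?_⟩
      rw [← hq, one_pow] at hh
      have e1 : ((i : ℕ) : ℤ) + l = (q : ℤ) * 4 + (r : ℤ) := by
        have := Nat.div_add_mod ((i : ℕ) + l) 4
        rw [← hq, ← hr] at this
        omega
      rw [e1, T_add, ← T_pow]
      linear_combination (T (r : ℤ)) * hh
    refine ⟨(⟨r, hr⟩, ⟨v', hrep _⟩), (-1) ^ s,
      (T ((i : ℕ) : ℤ) : ℤ[T;T⁻¹]) • b + ((-1) ^ s * h) • wa m (toN v'), ?_, ?_⟩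
    · push_cast
      rw [abs_pow, abs_neg, abs_one, one_pow]
    · rw [h1, h2]
      unfold gF
      simp only
      rw [smul_add, smul_smul, smul_smul, smul_add, smul_smul, smul_smul, ← Int.cast_smul_eq_zsmul ℤ[T;T⁻¹],
        smul_smul]
      have e5 : (T ((i : ℕ) : ℤ) : ℤ[T;T⁻¹]) * ((-1) ^ s * T (l : ℤ)) =
          (((-1) ^ s : ℤ) : ℤ[T;T⁻¹]) * T (r : ℤ) + (T 4 - 1) * ((-1) ^ s * h) := by
        rw [T_add] at hh
        push_cast
        linear_combination ((-1) ^ s) * hh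
      rw [e5, add_smul, mul_comm (T ((i : ℕ) : ℤ) : ℤ[T;T⁻¹]) (T 4 - 1)]
      abel
  choose σ ε E hε hE using hstep
  have hPE : ∀ (x : Letter m) (j : Fin 4 × F), PP (T 4 - 1 : ℤ[T;T⁻¹]) (gF F) (E x j) :=
    fun x j => PP_all F hF _
  choose K0 hK0 hK using hPE
  set K : ℝ := ∑ x, ∑ j, K0 x j with hKdef
  have hKle : ∀ x j, K0 x j ≤ K := by
    intro x j
    have h1 : K0 x j ≤ ∑ j, K0 x j :=
      Finset.single_le_sum (f := fun j => K0 x j) (fun j _ => hK0 x j) (Finset.mem_univ j)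
    exact h1.trans (Finset.single_le_sum (f := fun x => ∑ j, K0 x j)
      (fun x _ => Finset.sum_nonneg fun j _ => hK0 x j) (Finset.mem_univ x))
  have hKpos : 0 ≤ K := Finset.sum_nonneg fun x _ => Finset.sum_nonneg fun j _ => hK0 x j
  refine ⟨F, K, hKpos, ?_⟩
  intro w n y hy hy1
  induction w with
  | nil =>
    have h1 : gF F (0, ⟨[], hnil⟩) = wa m (toN ([] : List (Letter m))) := by
      unfold gF
      show (T 0 : ℤ[T;T⁻¹]) • wa m (toN ([] : List (Letter m))) = _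
      rw [T_zero, one_smul]
    rw [← h1, List.length_nil, pow_zero]
    exact Nb.base _
  | cons x w ih =>
    have h1 : wa m (toN (x :: w)) = (LinearMap.mulLeft ℤ[T;T⁻¹]
        (ltr (T 1 : ℤ[T;T⁻¹]) (T (-1)) (ea m) (x.1, (x.2 : ℕ)))) (wa m (toN w)) := by
      rw [LinearMap.mulLeft_apply]
      exact wa_cons m _ _
    rw [h1, List.length_cons, pow_succ]
    refine Nb.step hy hKpos _ (σ x) (ε x) (hε x) (E x) ?_ ?_ ih
    · intro j
      rw [LinearMap.mulLeft_apply]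
      exact hE x j
    · intro j
      exact (hK x j n y hy hy1).mono (hKle x j)

end Pool.Agent.T6.H96.KT
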